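import Mathlib.SetTheory.Cardinal.Finite
import Mathlib.Data.Fintype.Pi

/-!
# d-to-1 Label Cover on a fixed bipartite graph
-/

set_option autoImplicit false

namespace Pool.Agent.TH700.PS

/-- The maps from `d R` labels to `R` labels for which every fiber has at most `d` elements. -/
def DMap (d R : ℕ) : Type := {f : Fin (d * R) → Fin R // ∀ b, Nat.card {a // f a = b} ≤ d}

/-- The labels `LV` of the left and `LW` of the right vertices satisfy the constraint `x e` of the
edge `e` (which joins the left vertex `(H e).1` and the right vertex `(H e).2`). -/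
def Satd {n m d R : ℕ} (H : Fin m → Fin n × Fin n) (x : Fin m → DMap d R) (LV : Fin n → Fin R)
    (LW : Fin n → Fin (d * R)) (e : Fin m) : Prop :=
  (x e).1 (LW (H e).2) = LV (H e).1

/-- The instance has value 1. -/
def ValueOne {n m d R : ℕ} (H : Fin m → Fin n × Fin n) (x : Fin m → DMap d R) : Prop :=
  ∃ (LV : Fin n → Fin R) (LW : Fin n → Fin (d * R)), ∀ e, Satd H x LV LW e

/-- The instance has value at most `1 / g`. -/
def ValueLe {n m d R : ℕ} (g : ℕ) (H : Fin m → Fin n × Fin n) (x : Fin m → DMap d R) : Prop :=
  ∀ (LV : Fin n → Fin R) (LW : Fin n → Fin (d * R)),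
    g * Nat.card {e // Satd H x LV LW e} ≤ m

end Pool.Agent.TH700.PS
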