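import Mathlib.Analysis.SpecialFunctions.Exp
import Mathlib.Analysis.Complex.ExponentialBounds
import Mathlib.Data.Fintype.CardEmbedding
import Mathlib.Algebra.BigOperators.Ring.Finset
import Mathlib.Tactic.Positivity
import Mathlib.Tactic.Linarith
import Mathlib.Tactic.FieldSimp
import Mathlib.Tactic.Ring

/-!
# Sparse bipartite graphs without dense spots
-/

set_option autoImplicit false

open Finset

namespace Pool.Agent.TH700.PS

variable {n m : ℕ}

/-- The edges from `A` to `B`. -/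
def eAB (H : Fin m → Fin n × Fin n) (A B : Finset (Fin n)) : Finset (Fin m) :=
  univ.filter (fun e => (H e).1 ∈ A ∧ (H e).2 ∈ B)

theorem exp_one_le : Real.exp 1 ≤ 3 := by
  have := Real.exp_one_lt_d9
  linarith

theorem two_le_exp : (2 : ℝ) ≤ Real.exp 1 := by
  have := Real.add_one_le_exp (1 : ℝ)
  linarith

/-- Few functions have many edges from `A` to `B`. -/
theorem few_dense {Δ κ : ℕ} (hn : 1 ≤ n) (A B : Finset (Fin n)) :
    ((univ.filter (fun H : Fin (Δ * n) → Fin n × Fin n =>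
      2 * Δ * (A.card * B.card) + κ * n ^ 2 < n * (eAB H A B).card)).card : ℝ) *
        Real.exp (κ * n) ≤ ((n : ℝ) ^ 2) ^ (Δ * n) := by
  have hn0 : (0 : ℝ) < n := by exact_mod_cast hn
  obtain ⟨Q, hQ⟩ : ∃ Q, Q = univ.filter (fun H : Fin (Δ * n) → Fin n × Fin n =>
      2 * Δ * (A.card * B.card) + κ * n ^ 2 < n * (eAB H A B).card) := ⟨_, rfl⟩
  obtain ⟨c, hc⟩ : ∃ c : ℝ, c = A.card * B.card := ⟨_, rfl⟩
  rw [← hQ]
  -- the moment
  have h1 : ∀ H : Fin (Δ * n) → Fin n × Fin n, Real.exp ((eAB H A B).card) =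
      ∏ e, (if (H e).1 ∈ A ∧ (H e).2 ∈ B then Real.exp 1 else 1) := by
    intro H
    rw [prod_ite, prod_const_one, mul_one, prod_const, ← Real.exp_nat_mul, mul_one]
    rfl
  have h2 : ∑ H : Fin (Δ * n) → Fin n × Fin n, Real.exp ((eAB H A B).card) =
      (∑ P : Fin n × Fin n, (if P.1 ∈ A ∧ P.2 ∈ B then Real.exp 1 else 1)) ^ (Δ * n) := by
    have h3 := prod_univ_sum (fun _ : Fin (Δ * n) => (univ : Finset (Fin n × Fin n)))
      (fun _ P => if P.1 ∈ A ∧ P.2 ∈ B then Real.exp 1 else (1 : ℝ))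
    rw [prod_const, card_univ, Fintype.card_fin, Fintype.piFinset_univ] at h3
    rw [h3]
    exact sum_congr rfl fun H _ => h1 H
  have h4 : ∑ P : Fin n × Fin n, (if P.1 ∈ A ∧ P.2 ∈ B then Real.exp 1 else 1) ≤
      (n : ℝ) ^ 2 + 2 * c := by
    have h5 : ∀ P : Fin n × Fin n, (if P.1 ∈ A ∧ P.2 ∈ B then Real.exp 1 else 1) ≤
        1 + (if P ∈ A ×ˢ B then (2 : ℝ) else 0) := by
      intro P
      have := exp_one_le
      by_cases hP : P.1 ∈ A ∧ P.2 ∈ B
      · rw [if_pos hP, if_pos (mem_product.2 hP)]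
        linarith
      · rw [if_neg hP, if_neg fun h => hP (mem_product.1 h)]
        norm_num
    refine (sum_le_sum fun P _ => h5 P).trans (le_of_eq ?_)
    rw [sum_add_distrib, sum_const, card_univ, Fintype.card_prod, Fintype.card_fin, ← sum_filter,
      sum_const, filter_mem_eq_inter, univ_inter, card_product, hc]
    simp only [nsmul_eq_mul]
    push_cast
    ring
  have h6 : (n : ℝ) ^ 2 + 2 * c ≤ (n : ℝ) ^ 2 * Real.exp (2 * c / (n : ℝ) ^ 2) := by
    have h7 := Real.add_one_le_exp (2 * c / (n : ℝ) ^ 2)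
    have h8 : (n : ℝ) ^ 2 + 2 * c = (n : ℝ) ^ 2 * (2 * c / (n : ℝ) ^ 2 + 1) := by
      field_simp
      ring
    rw [h8]
    exact mul_le_mul_of_nonneg_left h7 (by positivity)
  have hc0 : 0 ≤ c := by rw [hc]; positivity
  have h9 : ∑ H : Fin (Δ * n) → Fin n × Fin n, Real.exp ((eAB H A B).card) ≤
      ((n : ℝ) ^ 2) ^ (Δ * n) * Real.exp (2 * Δ * c / n) := by
    rw [h2]
    refine (pow_le_pow_left₀ ?_ (h4.trans h6) _).trans (le_of_eq ?_)
    · exact sum_nonneg fun P _ => by split_ifs <;> positivity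
    · rw [mul_pow, ← Real.exp_nat_mul]
      congr 2
      push_cast
      field_simp
  -- the bad functions have a large moment
  have h10 : (Q.card : ℝ) * Real.exp (2 * Δ * c / n + κ * n) ≤
      ∑ H : Fin (Δ * n) → Fin n × Fin n, Real.exp ((eAB H A B).card) := by
    calc (Q.card : ℝ) * Real.exp (2 * Δ * c / n + κ * n) =
        ∑ _H ∈ Q, Real.exp (2 * Δ * c / n + κ * n) := by rw [sum_const, nsmul_eq_mul]
      _ ≤ ∑ H ∈ Q, Real.exp ((eAB H A B).card) := by
          refine sum_le_sum fun H hH => Real.exp_le_exp.2 ?_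
          rw [hQ, mem_filter] at hH
          have h11 : (2 * Δ * (A.card * B.card) + κ * n ^ 2 : ℝ) < n * (eAB H A B).card := by
            exact_mod_cast hH.2
          rw [← hc] at h11
          have h12 : 2 * Δ * c / n + κ * n = (2 * Δ * c + κ * n ^ 2) / n := by
            field_simp
          rw [h12, div_le_iff₀ hn0]
          linarith
      _ ≤ _ := sum_le_sum_of_subset_of_nonneg (subset_univ Q) fun _ _ _ => (Real.exp_pos _).le
  have h13 := h10.trans h9
  rw [Real.exp_add] at h13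
  have h14 : 0 < Real.exp (2 * Δ * c / n) := Real.exp_pos _
  refine le_of_mul_le_mul_right ?_ h14
  calc (Q.card : ℝ) * Real.exp (κ * n) * Real.exp (2 * Δ * c / n) =
      (Q.card : ℝ) * (Real.exp (2 * Δ * c / n) * Real.exp (κ * n)) := by ring
    _ ≤ _ := h13

/-- There are many embeddings. -/
theorem many_emb {Δ : ℕ} (hn : 2 * Δ ≤ n) (hn1 : 1 ≤ n) :
    ((n : ℝ) ^ 2) ^ (Δ * n) * Real.exp (-(2 * Δ ^ 2)) ≤
      (Fintype.card (Fin (Δ * n) ↪ Fin n × Fin n) : ℝ) := by
  have hn0 : (0 : ℝ) < n := by exact_mod_cast hn1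
  rw [Fintype.card_embedding_eq, Fintype.card_prod, Fintype.card_fin, Fintype.card_fin]
  have h1 := Nat.pow_sub_le_descFactorial (n * n) (Δ * n)
  have hle : Δ * n ≤ n * n := Nat.mul_le_mul_right _ (by omega)
  have h2 : (n * n - Δ * n) ^ (Δ * n) ≤ (n * n).descFactorial (Δ * n) :=
    (Nat.pow_le_pow_left (by omega) _).trans h1
  have h3 : (((n * n - Δ * n : ℕ) : ℝ)) ^ (Δ * n) ≤ ((n * n).descFactorial (Δ * n) : ℝ) := by
    exact_mod_cast h2
  refine le_trans ?_ h3
  rw [Nat.cast_sub hle]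
  push_cast
  have h4 : (Δ : ℝ) / n ≤ 1 / 2 := by
    rw [div_le_iff₀ hn0]
    have : (2 * Δ : ℝ) ≤ n := by exact_mod_cast hn
    linarith
  obtain ⟨x, hx⟩ : ∃ x : ℝ, x = Δ / n := ⟨_, rfl⟩
  have hx0 : 0 ≤ x := by rw [hx]; positivity
  rw [← hx] at h4
  have h5 : Real.exp (-(2 * x)) ≤ 1 - x := by
    have h6 := Real.add_one_le_exp (2 * x)
    have h7 : 1 ≤ (1 - x) * (2 * x + 1) := by nlinarith
    have h8 : 0 < 1 - x := by linarith
    rw [Real.exp_neg, inv_le_comm₀ (Real.exp_pos _) h8]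
    refine le_trans ?_ h6
    rw [inv_le_iff_one_le_mul₀' h8]
    exact h7
  have h9 : (n : ℝ) * n - Δ * n = (n : ℝ) ^ 2 * (1 - x) := by
    rw [hx]
    field_simp
  rw [h9, mul_pow]
  refine mul_le_mul_of_nonneg_left ?_ (by positivity)
  refine le_trans (le_of_eq ?_) (pow_le_pow_left₀ (Real.exp_pos _).le h5 _)
  rw [← Real.exp_nat_mul]
  congr 1
  rw [hx]
  push_cast
  field_simp

/-- A sparse bipartite graph without dense spots. -/
theorem exists_disc {Δ κ : ℕ} (hκ : 3 ≤ κ) (hn : 2 * Δ + 2 * Δ ^ 2 + 1 ≤ n) :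
    ∃ H : Fin (Δ * n) ↪ Fin n × Fin n, ∀ A B : Finset (Fin n),
      n * (eAB H A B).card ≤ 2 * Δ * (A.card * B.card) + κ * n ^ 2 := by
  classical
  by_contra hcon
  push Not at hcon
  have hn1 : 1 ≤ n := by omega
  have hn0 : (0 : ℝ) < n := by exact_mod_cast hn1
  obtain ⟨Q, hQ⟩ : ∃ Q : Finset (Fin n) × Finset (Fin n) →
      Finset (Fin (Δ * n) → Fin n × Fin n), Q = fun P =>
      univ.filter (fun H : Fin (Δ * n) → Fin n × Fin n =>
        2 * Δ * (P.1.card * P.2.card) + κ * n ^ 2 < n * (eAB H P.1 P.2).card) := ⟨_, rfl⟩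
  have h1 : Fintype.card (Fin (Δ * n) ↪ Fin n × Fin n) ≤
      ∑ P : Finset (Fin n) × Finset (Fin n), (Q P).card := by
    rw [← card_univ]
    refine le_trans ?_ card_biUnion_le
    refine card_le_card_of_injOn (fun H => (H : Fin (Δ * n) → Fin n × Fin n)) (fun H _ => ?_)
      (fun H _ H' _ h => DFunLike.coe_injective h)
    obtain ⟨A, B, hAB⟩ := hcon H
    rw [mem_coe, mem_biUnion]
    refine ⟨(A, B), mem_univ _, ?_⟩
    rw [hQ]
    exact mem_filter.2 ⟨mem_univ _, hAB⟩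
  have h2 : (Fintype.card (Fin (Δ * n) ↪ Fin n × Fin n) : ℝ) * Real.exp (κ * n) ≤
      Real.exp (2 * n) * ((n : ℝ) ^ 2) ^ (Δ * n) := by
    calc (Fintype.card (Fin (Δ * n) ↪ Fin n × Fin n) : ℝ) * Real.exp (κ * n) ≤
        (∑ P : Finset (Fin n) × Finset (Fin n), ((Q P).card : ℝ)) * Real.exp (κ * n) := by
          refine mul_le_mul_of_nonneg_right ?_ (Real.exp_pos _).le
          exact_mod_cast h1
      _ = ∑ P : Finset (Fin n) × Finset (Fin n), ((Q P).card : ℝ) * Real.exp (κ * n) := by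
          rw [sum_mul]
      _ ≤ ∑ _P : Finset (Fin n) × Finset (Fin n), ((n : ℝ) ^ 2) ^ (Δ * n) := by
          refine sum_le_sum fun P _ => ?_
          rw [hQ]
          exact few_dense hn1 P.1 P.2
      _ = ((2 : ℝ) ^ n * 2 ^ n) * ((n : ℝ) ^ 2) ^ (Δ * n) := by
          rw [sum_const, card_univ, Fintype.card_prod, Fintype.card_finset, Fintype.card_fin,
            nsmul_eq_mul]
          push_cast
          ring
      _ ≤ _ := by
          refine mul_le_mul_of_nonneg_right ?_ (by positivity)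
          have h3 : (2 : ℝ) ^ n ≤ Real.exp n := by
            calc (2 : ℝ) ^ n ≤ (Real.exp 1) ^ n := pow_le_pow_left₀ (by norm_num) two_le_exp _
              _ = _ := by rw [← Real.exp_nat_mul, mul_one]
          calc (2 : ℝ) ^ n * 2 ^ n ≤ Real.exp n * Real.exp n :=
                mul_le_mul h3 h3 (by positivity) (Real.exp_pos _).le
            _ = _ := by rw [← Real.exp_add]; congr 1; ring
  have h3 := many_emb (Δ := Δ) (n := n) (by omega) hn1
  have hN : (0 : ℝ) < ((n : ℝ) ^ 2) ^ (Δ * n) := by positivity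
  have h4 : ((n : ℝ) ^ 2) ^ (Δ * n) * (Real.exp (-(2 * Δ ^ 2)) * Real.exp (κ * n)) ≤
      ((n : ℝ) ^ 2) ^ (Δ * n) * Real.exp (2 * n) := by
    calc _ = ((n : ℝ) ^ 2) ^ (Δ * n) * Real.exp (-(2 * Δ ^ 2)) * Real.exp (κ * n) := by ring
      _ ≤ _ := mul_le_mul_of_nonneg_right h3 (Real.exp_pos _).le
      _ ≤ _ := h2
      _ = _ := mul_comm _ _
  have h5 := le_of_mul_le_mul_left h4 hN
  rw [← Real.exp_add, Real.exp_le_exp] at h5
  have h6 : (2 * Δ + 2 * Δ ^ 2 + 1 : ℝ) ≤ n := by exact_mod_cast hn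
  have h7 : (3 : ℝ) ≤ κ := by exact_mod_cast hκ
  have h8 : (0 : ℝ) ≤ Δ := Nat.cast_nonneg _
  nlinarith

end Pool.Agent.TH700.PS
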