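import Pool.Agent.TH700.PS.Maps
import Pool.Agent.TH700.PS.Disc
import Pool.Agent.TH700.PA.Density
import Pool.Agent.TH700.PA.Count

/-!
# Mixtures of satisfiable instances of d-to-1 Label Cover on a sparse graph have small value
-/

set_option autoImplicit false

open Finset

namespace Pool.Agent.TH700.PS

open Pool.Agent.TH700.PA

variable {n m d R t : ℕ}

/-- The vertices. -/
abbrev Vs (n : ℕ) : Type := Fin n ⊕ Fin n

/-- The labelings. -/
abbrev Lb (n d R : ℕ) : Type := (Fin n → Fin R) × (Fin n → Fin (d * R))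

/-- The patterns: a labeling and arbitrary maps. -/
abbrev Pt (n m d R : ℕ) : Type := Lb n d R × (Fin m → DMap d R)

/-- The instance of a pattern: the maps corrected so that the labeling satisfies all edges. -/
def ins (H : Fin m → Fin n × Fin n) (P : Pt n m d R) : Fin m → DMap d R :=
  fun e => fix (P.2 e) (P.1.2 (H e).2) (P.1.1 (H e).1)

theorem ins_valueOne (H : Fin m → Fin n × Fin n) (P : Pt n m d R) : ValueOne H (ins H P) :=
  ⟨P.1.1, P.1.2, fun _ => fix_self _ _ _⟩

/-- The labelings agree at a vertex. -/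
def Hit (L β : Lb n d R) : Vs n → Prop
  | Sum.inl v => L.1 v = β.1 v
  | Sum.inr w => L.2 w = β.2 w

/-- Agreement at both ends. -/
def Ag (H : Fin m → Fin n × Fin n) (p : Fin m → Fin t) (b : Fin t → Pt n m d R) (β : Lb n d R)
    (e : Fin m) : Prop :=
  Hit (b (p e)).1 β (Sum.inl (H e).1) ∧ Hit (b (p e)).1 β (Sum.inr (H e).2)

/-- Accidental satisfaction. -/
def Ac (H : Fin m → Fin n × Fin n) (p : Fin m → Fin t) (b : Fin t → Pt n m d R) (β : Lb n d R)
    (e : Fin m) : Prop :=
  (b (p e)).1.2 (H e).2 ≠ β.2 (H e).2 ∧ (ins H (b (p e)) e).1 (β.2 (H e).2) = β.1 (H e).1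

theorem satd_cases {H : Fin m → Fin n × Fin n} {p : Fin m → Fin t} {b : Fin t → Pt n m d R}
    {β : Lb n d R} {e : Fin m} (h : Satd H (mixp p (ins H) b) β.1 β.2 e) :
    Ag H p b β e ∨ Ac H p b β e := by
  unfold Satd mixp at h
  by_cases h1 : (b (p e)).1.2 (H e).2 = β.2 (H e).2
  · refine Or.inl ⟨?_, h1⟩
    have h' : (ins H (b (p e)) e).1 (β.2 (H e).2) = β.1 (H e).1 := h
    show (b (p e)).1.1 (H e).1 = β.1 (H e).1
    rw [← h', ← h1]
    exact (fix_self _ _ _).symm
  · exact Or.inr ⟨h1, h⟩

open Classical in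
/-- The coincidences of the labelings with `β`. -/
noncomputable def Co (b : Fin t → Pt n m d R) (β : Lb n d R) : Finset (Fin t × Vs n) :=
  univ.filter (fun s => Hit (b s.1).1 β s.2)

open Classical in
theorem card_ag {g : ℕ} (hn : 1 ≤ n) {H : Fin m → Fin n × Fin n}
    (hH : ∀ A B : Finset (Fin n), n * (eAB H A B).card ≤
      2 * (256 * g ^ 2 * t) * (A.card * B.card) + 64 * g * n ^ 2)
    (p : Fin m → Fin t) (hb : ∀ j, (univ.filter (fun e => p e = j)).card ≤ 2 * (t * n))
    (b : Fin t → Pt n m d R) (β : Lb n d R) :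
    (univ.filter (fun e => Ag H p b β e)).card ≤
      16 * g * t * (Co b β).card + 64 * g * n * t := by
  have h1 : (univ.filter (fun e => Ag H p b β e)).card =
      ∑ j, ((univ.filter (fun e => Ag H p b β e)).filter (fun e => p e = j)).card :=
    card_eq_sum_card_fiberwise (fun _ _ => mem_univ _)
  have h2 : (Co b β).card = ∑ j, ((Co b β).filter (fun s => s.1 = j)).card :=
    card_eq_sum_card_fiberwise (fun _ _ => mem_univ _)
  have h0 : ∑ _j : Fin t, 64 * g * n = 64 * g * n * t := by
    rw [sum_const, card_univ, Fintype.card_fin, smul_eq_mul, mul_comm]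
  rw [h1, h2, mul_sum, ← h0, ← sum_add_distrib]
  refine sum_le_sum fun j _ => ?_
  obtain ⟨A, hA⟩ : ∃ A : Finset (Fin n), A = univ.filter (fun v => Hit (b j).1 β (Sum.inl v)) :=
    ⟨_, rfl⟩
  obtain ⟨B, hB⟩ : ∃ B : Finset (Fin n), B = univ.filter (fun w => Hit (b j).1 β (Sum.inr w)) :=
    ⟨_, rfl⟩
  obtain ⟨X, hX⟩ : ∃ X, X =
      ((univ.filter (fun e => Ag H p b β e)).filter (fun e => p e = j)).card := ⟨_, rfl⟩
  obtain ⟨k, hk⟩ : ∃ k, k = ((Co b β).filter (fun s => s.1 = j)).card := ⟨_, rfl⟩
  rw [← hX, ← hk]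
  have h3 : X ≤ 2 * (t * n) := by
    rw [hX]
    refine le_trans (card_le_card fun e he => ?_) (hb j)
    exact mem_filter.2 ⟨mem_univ _, (mem_filter.1 he).2⟩
  have h4 : X ≤ (eAB H A B).card := by
    rw [hX]
    refine card_le_card fun e he => ?_
    rw [mem_filter, mem_filter] at he
    obtain ⟨⟨-, g1, g2⟩, rfl⟩ := he
    refine mem_filter.2 ⟨mem_univ _, ?_, ?_⟩
    · rw [hA]
      exact mem_filter.2 ⟨mem_univ _, g1⟩
    · rw [hB]
      exact mem_filter.2 ⟨mem_univ _, g2⟩
  have h5 : A.card + B.card ≤ k := by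
    rw [hk, ← card_disjSum]
    refine card_le_card_of_injOn (fun s => (j, s)) (fun s hs => ?_)
      (fun s _ s' _ h => (Prod.mk.inj h).2)
    rw [mem_coe, mem_filter]
    refine ⟨?_, rfl⟩
    unfold Co
    refine mem_filter.2 ⟨mem_univ _, ?_⟩
    rcases s with v | w
    · have h6 := Finset.inl_mem_disjSum.1 (mem_coe.1 hs)
      rw [hA] at h6
      exact (mem_filter.1 h6).2
    · have h6 := Finset.inr_mem_disjSum.1 (mem_coe.1 hs)
      rw [hB] at h6
      exact (mem_filter.1 h6).2
  obtain ⟨α, hα⟩ : ∃ α, α = A.card := ⟨_, rfl⟩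
  obtain ⟨γ, hγ⟩ : ∃ γ, γ = B.card := ⟨_, rfl⟩
  have h6 := hH A B
  rw [← hα, ← hγ] at h5 h6
  -- the two cases
  refine Nat.le_of_mul_le_mul_left (c := n) ?_ (by omega)
  rcases Nat.lt_or_ge n (8 * g * k) with h7 | h7
  · calc n * X ≤ n * (2 * (t * n)) := Nat.mul_le_mul_left _ h3
      _ = n * (2 * t) * n := by ring
      _ ≤ n * (2 * t) * (8 * g * k) := Nat.mul_le_mul_left _ h7.le
      _ = n * (16 * g * t * k) := by ring
      _ ≤ _ := Nat.mul_le_mul_left _ (Nat.le_add_right _ _)
  · have h8 : 4 * (α * γ) ≤ k * k := by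
      have h9 : (α + γ) * (α + γ) ≤ k * k := Nat.mul_le_mul h5 h5
      nlinarith [sq_nonneg ((α : ℤ) - γ)]
    calc n * X ≤ n * (eAB H A B).card := Nat.mul_le_mul_left _ h4
      _ ≤ 2 * (256 * g ^ 2 * t) * (α * γ) + 64 * g * n ^ 2 := h6
      _ = 128 * g ^ 2 * t * (4 * (α * γ)) + 64 * g * n ^ 2 := by ring
      _ ≤ 128 * g ^ 2 * t * (k * k) + 64 * g * n ^ 2 :=
          Nat.add_le_add_right (Nat.mul_le_mul_left _ h8) _
      _ = 16 * g * t * k * (8 * g * k) + 64 * g * n ^ 2 := by ring
      _ ≤ 16 * g * t * k * n + 64 * g * n ^ 2 :=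
          Nat.add_le_add_right (Nat.mul_le_mul_left _ h7) _
      _ = _ := by ring

/-! ### counting -/

theorem prod_ite_pow {ι : Type} [Fintype ι] [DecidableEq ι] (S : Finset ι) (r : ℕ) :
    ∏ i, (if i ∈ S then r else 1) = r ^ S.card := by
  rw [prod_ite, prod_const_one, mul_one, prod_const]
  congr 2
  ext i
  simp

theorem card_lb : Fintype.card (Lb n d R) = R ^ n * (d * R) ^ n := by
  rw [Fintype.card_prod, Fintype.card_fun, Fintype.card_fun, Fintype.card_fin, Fintype.card_fin,
    Fintype.card_fin]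

theorem card_pt : Fintype.card (Pt n m d R) =
    R ^ n * (d * R) ^ n * Fintype.card (DMap d R) ^ m := by
  rw [Fintype.card_prod, card_lb, Fintype.card_fun, Fintype.card_fin]

open Classical in
/-- The tuples with given coincidences. -/
theorem card_coinc (hd : 1 ≤ d) (β : Lb n d R) (S : Finset (Fin t × Vs n)) :
    (univ.filter (fun b : Fin t → Pt n m d R => ∀ s ∈ S, Hit (b s.1).1 β s.2)).card *
      R ^ S.card ≤ Fintype.card (Pt n m d R) ^ t := by
  have h1 : univ.filter (fun b : Fin t → Pt n m d R => ∀ s ∈ S, Hit (b s.1).1 β s.2) ⊆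
      Fintype.piFinset (fun j => ((Fintype.piFinset (fun v =>
        if (j, Sum.inl v) ∈ S then ({β.1 v} : Finset (Fin R)) else univ)) ×ˢ
        (Fintype.piFinset (fun w =>
        if (j, Sum.inr w) ∈ S then ({β.2 w} : Finset (Fin (d * R))) else univ))) ×ˢ
          (univ : Finset (Fin m → DMap d R))) := by
    intro b hb
    rw [Fintype.mem_piFinset]
    intro j
    rw [mem_product, mem_product, Fintype.mem_piFinset, Fintype.mem_piFinset]
    refine ⟨⟨fun v => ?_, fun w => ?_⟩, mem_univ _⟩
    · by_cases hw : (j, Sum.inl v) ∈ S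
      · rw [if_pos hw, mem_singleton]
        exact (mem_filter.1 hb).2 (j, Sum.inl v) hw
      · rw [if_neg hw]
        exact mem_univ _
    · by_cases hw : (j, Sum.inr w) ∈ S
      · rw [if_pos hw, mem_singleton]
        exact (mem_filter.1 hb).2 (j, Sum.inr w) hw
      · rw [if_neg hw]
        exact mem_univ _
  refine (Nat.mul_le_mul_right _ (card_le_card h1)).trans ?_
  rw [Fintype.card_piFinset, ← prod_ite_pow S R, Fintype.prod_prod_type, ← prod_mul_distrib]
  have h2 : ∀ j : Fin t, (((Fintype.piFinset (fun v =>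
        if (j, Sum.inl v) ∈ S then ({β.1 v} : Finset (Fin R)) else univ)) ×ˢ
        (Fintype.piFinset (fun w =>
        if (j, Sum.inr w) ∈ S then ({β.2 w} : Finset (Fin (d * R))) else univ))) ×ˢ
          (univ : Finset (Fin m → DMap d R))).card *
      ∏ w : Vs n, (if (j, w) ∈ S then R else 1) ≤ Fintype.card (Pt n m d R) := by
    intro j
    rw [card_product, card_product, Fintype.card_piFinset, Fintype.card_piFinset, card_univ,
      Fintype.prod_sum_type]
    have h3 : (∏ v : Fin n, (if (j, Sum.inl v) ∈ S then ({β.1 v} : Finset (Fin R))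
        else univ).card) * ∏ v : Fin n, (if ((j, Sum.inl v) : Fin t × Vs n) ∈ S then R else 1) ≤
          R ^ n := by
      rw [← prod_mul_distrib]
      calc _ ≤ ∏ _v : Fin n, R := by
            refine prod_le_prod' fun v _ => ?_
            by_cases hw : ((j, Sum.inl v) : Fin t × Vs n) ∈ S
            · rw [if_pos hw, if_pos hw, card_singleton, one_mul]
            · rw [if_neg hw, if_neg hw, card_univ, Fintype.card_fin, mul_one]
        _ = _ := by rw [prod_const, card_univ, Fintype.card_fin]
    have h4 : (∏ w : Fin n, (if (j, Sum.inr w) ∈ S then ({β.2 w} : Finset (Fin (d * R)))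
        else univ).card) * ∏ w : Fin n, (if ((j, Sum.inr w) : Fin t × Vs n) ∈ S then R else 1) ≤
          (d * R) ^ n := by
      rw [← prod_mul_distrib]
      calc _ ≤ ∏ _w : Fin n, (d * R) := by
            refine prod_le_prod' fun w _ => ?_
            by_cases hw : ((j, Sum.inr w) : Fin t × Vs n) ∈ S
            · rw [if_pos hw, if_pos hw, card_singleton, one_mul]
              exact Nat.le_mul_of_pos_left _ hd
            · rw [if_neg hw, if_neg hw, card_univ, Fintype.card_fin, mul_one]
        _ = _ := by rw [prod_const, card_univ, Fintype.card_fin]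
    rw [card_pt, Fintype.card_fun, Fintype.card_fin]
    calc _ = ((∏ v : Fin n, (if (j, Sum.inl v) ∈ S then ({β.1 v} : Finset (Fin R))
        else univ).card) * ∏ v : Fin n, (if ((j, Sum.inl v) : Fin t × Vs n) ∈ S then R else 1)) *
        ((∏ w : Fin n, (if (j, Sum.inr w) ∈ S then ({β.2 w} : Finset (Fin (d * R)))
        else univ).card) * ∏ w : Fin n, (if ((j, Sum.inr w) : Fin t × Vs n) ∈ S then R else 1)) *
        Fintype.card (DMap d R) ^ m := by ring
      _ ≤ _ := Nat.mul_le_mul_right _ (Nat.mul_le_mul h3 h4)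
  refine (prod_le_prod' fun j _ => h2 j).trans (le_of_eq ?_)
  rw [prod_const, card_univ, Fintype.card_fin]

open Classical in
/-- The tuples with given accidental satisfactions. -/
theorem card_accid (H : Fin m → Fin n × Fin n) (p : Fin m → Fin t) (β : Lb n d R)
    (S : Finset (Fin m)) :
    (univ.filter (fun b : Fin t → Pt n m d R => ∀ e ∈ S, Ac H p b β e)).card *
      (R - 1) ^ S.card ≤ Fintype.card (Pt n m d R) ^ t := by
  obtain ⟨Q, hQ⟩ : ∃ Q, Q = univ.filter (fun b : Fin t → Pt n m d R => ∀ e ∈ S, Ac H p b β e) :=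
    ⟨_, rfl⟩
  rw [← hQ]
  have h1 : Q.card = ∑ ℓ : Fin t → Lb n d R,
      (Q.filter (fun b => (fun j => (b j).1) = ℓ)).card :=
    card_eq_sum_card_fiberwise (f := fun (b : Fin t → Pt n m d R) (j : Fin t) => (b j).1)
      (fun _ _ => mem_univ _)
  have h2 : ∀ ℓ : Fin t → Lb n d R,
      (Q.filter (fun b => (fun j => (b j).1) = ℓ)).card * (R - 1) ^ S.card ≤
        (Fintype.card (DMap d R) ^ m) ^ t := by
    intro ℓ
    -- the bad maps
    obtain ⟨F, hF⟩ : ∃ F : Fin t → Fin m → Finset (DMap d R), F = fun j e =>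
        if e ∈ S ∧ p e = j then univ.filter (fun ω : DMap d R =>
          (ℓ j).2 (H e).2 ≠ β.2 (H e).2 ∧
          (fix ω ((ℓ j).2 (H e).2) ((ℓ j).1 (H e).1)).1 (β.2 (H e).2) = β.1 (H e).1)
        else univ := ⟨_, rfl⟩
    have h3 : (Q.filter (fun b => (fun j => (b j).1) = ℓ)).card ≤
        (Fintype.piFinset (fun j => Fintype.piFinset (F j))).card := by
      refine card_le_card_of_injOn (fun b j => (b j).2) (fun b hb => ?_) (fun b hb b' hb' h => ?_)
      · rw [mem_coe, mem_filter, hQ, mem_filter] at hb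
        obtain ⟨⟨-, hb1⟩, hb2⟩ := hb
        rw [mem_coe, Fintype.mem_piFinset]
        intro j
        rw [Fintype.mem_piFinset]
        intro e
        rw [hF]
        by_cases he : e ∈ S ∧ p e = j
        · simp only [if_pos he]
          obtain ⟨he1, he2⟩ := he
          have h4 := hb1 e he1
          unfold Ac ins at h4
          rw [he2] at h4
          have h5 : (b j).1 = ℓ j := congrFun hb2 j
          rw [h5] at h4
          exact mem_filter.2 ⟨mem_univ _, h4⟩
        · simp only [if_neg he]
          exact mem_univ _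
      · rw [mem_coe, mem_filter] at hb hb'
        funext j
        have h4 : (b j).1 = (b' j).1 := (congrFun hb.2 j).trans (congrFun hb'.2 j).symm
        exact Prod.ext h4 (congrFun h j)
    refine (Nat.mul_le_mul_right _ h3).trans ?_
    have h4 : (R - 1) ^ S.card = ∏ j : Fin t, ∏ e : Fin m,
        (if e ∈ S ∧ p e = j then (R - 1) else 1) := by
      rw [prod_comm, ← prod_ite_pow S (R - 1)]
      refine prod_congr rfl fun e _ => ?_
      by_cases he : e ∈ S
      · simp only [he, true_and, if_true]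
        rw [prod_ite_eq]
        simp
      · simp [he]
    rw [h4, Fintype.card_piFinset, ← prod_mul_distrib]
    have h5 : ∀ j : Fin t, (Fintype.piFinset (F j)).card *
        ∏ e : Fin m, (if e ∈ S ∧ p e = j then (R - 1) else 1) ≤
          Fintype.card (DMap d R) ^ m := by
      intro j
      rw [Fintype.card_piFinset, ← prod_mul_distrib]
      calc ∏ e : Fin m, ((F j e).card * (if e ∈ S ∧ p e = j then (R - 1) else 1)) ≤
          ∏ _e : Fin m, Fintype.card (DMap d R) := by
            refine prod_le_prod' fun e _ => ?_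
            rw [hF]
            by_cases he : e ∈ S ∧ p e = j
            · simp only [if_pos he]
              by_cases hne : (ℓ j).2 (H e).2 = β.2 (H e).2
              · have h6 : univ.filter (fun ω : DMap d R =>
                    (ℓ j).2 (H e).2 ≠ β.2 (H e).2 ∧
                    (fix ω ((ℓ j).2 (H e).2) ((ℓ j).1 (H e).1)).1 (β.2 (H e).2) =
                      β.1 (H e).1) = ∅ := by
                  rw [filter_eq_empty_iff]
                  intro ω _ h
                  exact h.1 hne
                rw [h6, card_empty, zero_mul]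
                exact Nat.zero_le _
              · rw [mul_comm]
                refine le_trans (Nat.mul_le_mul_left _ (card_le_card fun ω hω => ?_))
                  (card_fix hne ((ℓ j).1 (H e).1) (β.1 (H e).1))
                exact mem_filter.2 ⟨mem_univ _, (mem_filter.1 hω).2.2⟩
            · simp only [if_neg he, mul_one]
              exact le_of_eq card_univ
        _ = _ := by
          rw [prod_const, card_univ, Fintype.card_fin]
    calc _ ≤ ∏ _j : Fin t, Fintype.card (DMap d R) ^ m := prod_le_prod' fun j _ => h5 j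
      _ = _ := by rw [prod_const, card_univ, Fintype.card_fin]
  rw [h1, sum_mul]
  refine (sum_le_sum fun ℓ _ => h2 ℓ).trans (le_of_eq ?_)
  rw [sum_const, card_univ, Fintype.card_fun, card_lb, Fintype.card_fin, smul_eq_mul, card_pt,
    ← mul_pow]

end Pool.Agent.TH700.PS
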