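import Pool.Agent.TH700.PS.Games
import Mathlib.Data.Nat.Choose.Bounds

/-!
# Tensor networks for d-to-1 Label Cover on a sparse graph
-/

set_option autoImplicit false

open Finset

namespace Pool.Agent.TH700.PS

open Pool.Agent.TH700.PA

variable {n d R t : ℕ}

/-- Most mixtures have small value. -/
theorem few_bad {g m : ℕ} (hg : 1 ≤ g) (hn : 1 ≤ n) (ht : t = 512 * g ^ 2 + 1) (hd : 1 ≤ d)
    (hdR : d ≤ R) (hR : 2 ^ (2 * t + 3) + 1 ≤ R) (hm : m = 256 * g ^ 2 * t * n)
    {H : Fin m → Fin n × Fin n}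
    (hH : ∀ A B : Finset (Fin n), n * (eAB H A B).card ≤
      2 * (256 * g ^ 2 * t) * (A.card * B.card) + 64 * g * n ^ 2)
    (p : Fin m → Fin t)
    (hb : ∀ j, (univ.filter (fun e => p e = j)).card ≤ 2 * (t * n)) :
    ∃ B : Finset (Fin t → Pt n m d R),
      (∀ b, ¬ ValueLe g H (mixp p (ins H) b) → b ∈ B) ∧
      B.card * 2 ^ (2 * n) ≤ Fintype.card (Pt n m d R) ^ t := by
  classical
  obtain ⟨s, hs⟩ : ∃ s, s = 128 * g * t * n := ⟨_, rfl⟩
  have hms : m = 2 * (g * s) := by rw [hm, hs]; ring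
  obtain ⟨C, hC⟩ : ∃ C, C = Fintype.card (Pt n m d R) ^ t := ⟨_, rfl⟩
  rw [← hC]
  have hg2 : g ≤ g ^ 2 := by nlinarith
  let X1 : Lb n d R → Finset (Fin t → Pt n m d R) := fun β =>
    (powersetCard (4 * n) (univ : Finset (Fin t × Vs n))).biUnion (fun S =>
      univ.filter (fun b : Fin t → Pt n m d R => ∀ s ∈ S, Hit (b s.1).1 β s.2))
  let X2 : Lb n d R → Finset (Fin t → Pt n m d R) := fun β =>
    (powersetCard s (univ : Finset (Fin m))).biUnion (fun S =>
      univ.filter (fun b : Fin t → Pt n m d R => ∀ e ∈ S, Ac H p b β e))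
  refine ⟨univ.biUnion (fun β : Lb n d R => X1 β ∪ X2 β), fun b hval => ?_, ?_⟩
  · unfold ValueLe at hval
    push Not at hval
    obtain ⟨LV, LW, hlt⟩ := hval
    rw [mem_biUnion]
    refine ⟨(LV, LW), mem_univ _, ?_⟩
    obtain ⟨β, hβ⟩ : ∃ β : Lb n d R, β = (LV, LW) := ⟨_, rfl⟩
    rw [← hβ]
    have h1 : Nat.card {e // Satd H (mixp p (ins H) b) LV LW e} ≤
        (univ.filter (fun e => Ag H p b β e)).card + (univ.filter (fun e => Ac H p b β e)).card := by
      rw [Nat.card_eq_fintype_card, Fintype.card_subtype]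
      refine le_trans (card_le_card fun e he => ?_) (card_union_le _ _)
      rw [mem_union, mem_filter, mem_filter]
      have h2 := (mem_filter.1 he).2
      have h3 : Satd H (mixp p (ins H) b) β.1 β.2 e := by
        rw [hβ]
        exact h2
      exact (satd_cases h3).imp (fun h => ⟨mem_univ _, h⟩) fun h => ⟨mem_univ _, h⟩
    obtain ⟨A, hA⟩ : ∃ A, A = (univ.filter (fun e => Ag H p b β e)).card := ⟨_, rfl⟩
    obtain ⟨Z, hZ⟩ : ∃ Z, Z = (univ.filter (fun e => Ac H p b β e)).card := ⟨_, rfl⟩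
    have h2 := card_ag hn hH p hb b β
    rw [← hA, ← hZ] at h1
    rw [← hA] at h2
    have h3 : m < g * (A + Z) := lt_of_lt_of_le hlt (Nat.mul_le_mul_left _ h1)
    rw [mem_union]
    rcases Nat.lt_or_ge (Co b β).card (4 * n) with h4 | h4
    · right
      have h5 : A ≤ s := by
        refine h2.trans ?_
        calc 16 * g * t * (Co b β).card + 64 * g * n * t ≤
            16 * g * t * (4 * n) + 64 * g * n * t :=
              Nat.add_le_add_right (Nat.mul_le_mul_left _ h4.le) _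
          _ = s := by rw [hs]; ring
      have h6 : s ≤ (univ.filter (fun e => Ac H p b β e)).card := by
        rw [← hZ]
        by_contra hcon
        rw [not_le] at hcon
        have h7 : g * (A + Z) ≤ g * (s + s) := Nat.mul_le_mul_left _ (by omega)
        have h8 : g * (s + s) = 2 * (g * s) := by ring
        omega
      obtain ⟨S, hS, hSc⟩ := exists_subset_card_eq h6
      show b ∈ X2 β
      rw [mem_biUnion]
      refine ⟨S, mem_powersetCard.2 ⟨subset_univ _, hSc⟩, mem_filter.2 ⟨mem_univ _, ?_⟩⟩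
      intro r hr
      exact (mem_filter.1 (hS hr)).2
    · left
      obtain ⟨S, hS, hSc⟩ := exists_subset_card_eq h4
      show b ∈ X1 β
      rw [mem_biUnion]
      refine ⟨S, mem_powersetCard.2 ⟨subset_univ _, hSc⟩, mem_filter.2 ⟨mem_univ _, ?_⟩⟩
      intro r hr
      exact (mem_filter.1 (hS hr)).2
  · obtain ⟨G, hG⟩ : ∃ G, G = R ^ (3 * n) * 2 ^ (2 * n + 1) := ⟨_, rfl⟩
    have hR1 : 1 ≤ R := by
      have : 0 < 2 ^ (2 * t + 3) := by positivity
      omega
    have hX1 : ∀ β, (X1 β).card * G ≤ C := by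
      intro β
      have h1 : (X1 β).card * R ^ (4 * n) ≤ 2 ^ (2 * t * n) * C := by
        calc (X1 β).card * R ^ (4 * n) ≤
            (∑ S ∈ powersetCard (4 * n) (univ : Finset (Fin t × Vs n)),
              (univ.filter (fun b : Fin t → Pt n m d R =>
                ∀ s ∈ S, Hit (b s.1).1 β s.2)).card) * R ^ (4 * n) :=
              Nat.mul_le_mul_right _ card_biUnion_le
          _ = ∑ S ∈ powersetCard (4 * n) (univ : Finset (Fin t × Vs n)),
              (univ.filter (fun b : Fin t → Pt n m d R =>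
                ∀ s ∈ S, Hit (b s.1).1 β s.2)).card * R ^ (4 * n) := by rw [sum_mul]
          _ ≤ ∑ _S ∈ powersetCard (4 * n) (univ : Finset (Fin t × Vs n)), C := by
              refine sum_le_sum fun S hS => ?_
              have h2 := card_coinc (m := m) hd β S
              rw [(mem_powersetCard.1 hS).2, ← hC] at h2
              exact h2
          _ = (powersetCard (4 * n) (univ : Finset (Fin t × Vs n))).card * C := by
              rw [sum_const, smul_eq_mul]
          _ ≤ _ := by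
              refine Nat.mul_le_mul_right _ ?_
              rw [card_powersetCard]
              refine (Nat.choose_le_two_pow _ _).trans (le_of_eq ?_)
              rw [card_univ, Fintype.card_prod, Fintype.card_sum, Fintype.card_fin,
                Fintype.card_fin]
              congr 1
              ring
      have h2 : 2 ^ (2 * t * n) * G ≤ R ^ (4 * n) := by
        have h3 : 2 ^ (2 * t * n) * 2 ^ (2 * n + 1) ≤ R ^ n := by
          calc 2 ^ (2 * t * n) * 2 ^ (2 * n + 1) = 2 ^ (2 * t * n + (2 * n + 1)) :=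
                (pow_add 2 _ _).symm
            _ ≤ 2 ^ ((2 * t + 3) * n) := by
                refine Nat.pow_le_pow_right (by norm_num) ?_
                have : (2 * t + 3) * n = 2 * t * n + 3 * n := by ring
                omega
            _ = (2 ^ (2 * t + 3)) ^ n := by rw [pow_mul]
            _ ≤ R ^ n := Nat.pow_le_pow_left (by omega) _
        calc 2 ^ (2 * t * n) * G = R ^ (3 * n) * (2 ^ (2 * t * n) * 2 ^ (2 * n + 1)) := by
              rw [hG]; ring
          _ ≤ R ^ (3 * n) * R ^ n := Nat.mul_le_mul_left _ h3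
          _ = R ^ (4 * n) := by rw [← pow_add]; congr 1; ring
      refine Nat.le_of_mul_le_mul_left (c := 2 ^ (2 * t * n)) ?_ (by positivity)
      calc 2 ^ (2 * t * n) * ((X1 β).card * G) = (X1 β).card * (2 ^ (2 * t * n) * G) := by ring
        _ ≤ (X1 β).card * R ^ (4 * n) := Nat.mul_le_mul_left _ h2
        _ ≤ _ := h1
    have hX2 : ∀ β, (X2 β).card * G ≤ C := by
      intro β
      have h1 : (X2 β).card * (R - 1) ^ s ≤ 2 ^ m * C := by
        calc (X2 β).card * (R - 1) ^ s ≤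
            (∑ S ∈ powersetCard s (univ : Finset (Fin m)),
              (univ.filter (fun b : Fin t → Pt n m d R => ∀ e ∈ S, Ac H p b β e)).card) *
                (R - 1) ^ s := Nat.mul_le_mul_right _ card_biUnion_le
          _ = ∑ S ∈ powersetCard s (univ : Finset (Fin m)),
              (univ.filter (fun b : Fin t → Pt n m d R => ∀ e ∈ S, Ac H p b β e)).card *
                (R - 1) ^ s := by rw [sum_mul]
          _ ≤ ∑ _S ∈ powersetCard s (univ : Finset (Fin m)), C := by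
              refine sum_le_sum fun S hS => ?_
              have h2 := card_accid (d := d) (R := R) H p β S
              rw [(mem_powersetCard.1 hS).2, ← hC] at h2
              exact h2
          _ = (powersetCard s (univ : Finset (Fin m))).card * C := by
              rw [sum_const, smul_eq_mul]
          _ ≤ _ := by
              refine Nat.mul_le_mul_right _ ?_
              rw [card_powersetCard]
              refine (Nat.choose_le_two_pow _ _).trans (le_of_eq ?_)
              rw [card_univ, Fintype.card_fin]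
      have h2 : 2 ^ m * G ≤ (R - 1) ^ s := by
        obtain ⟨Q, hQ⟩ : ∃ Q, Q = R - 1 := ⟨_, rfl⟩
        have hQ1 : 2 ^ (2 * t + 3) ≤ Q := by omega
        have hQ0 : 1 ≤ Q := le_trans Nat.one_le_two_pow hQ1
        have hq2 : R ≤ 2 * Q := by omega
        have hgt : 1 ≤ g * t := Nat.mul_pos hg (by omega)
        have hsn : 128 * n ≤ s := by
          calc 128 * n ≤ 128 * n * (g * t) := Nat.le_mul_of_pos_right _ hgt
            _ = s := by rw [hs]; ring
        have h6 : 3 * n ≤ s := by omega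
        obtain ⟨r, hr⟩ := Nat.exists_eq_add_of_le h6
        have h8 : m + (5 * n + 1) ≤ (2 * t + 3) * r := by
          have h9 : s ≤ 2 * r := by omega
          have h10 : g * s ≤ t * s := Nat.mul_le_mul_right _ (by omega)
          have h11 : 2 * (g * s) ≤ t * s := by
            calc 2 * (g * s) = (2 * g) * s := by ring
              _ ≤ t * s := Nat.mul_le_mul_right _ (by omega)
          have h12 : (2 * t + 3) * s ≤ (2 * t + 3) * (2 * r) := Nat.mul_le_mul_left _ h9
          have h13 : (2 * t + 3) * s = 2 * (t * s) + 3 * s := by ring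
          have h14 : (2 * t + 3) * (2 * r) = 2 * ((2 * t + 3) * r) := by ring
          omega
        calc 2 ^ m * G = 2 ^ m * (R ^ (3 * n) * 2 ^ (2 * n + 1)) := by rw [hG]
          _ ≤ 2 ^ m * ((2 * Q) ^ (3 * n) * 2 ^ (2 * n + 1)) :=
              Nat.mul_le_mul_left _ (Nat.mul_le_mul_right _ (Nat.pow_le_pow_left hq2 _))
          _ = 2 ^ (m + (5 * n + 1)) * Q ^ (3 * n) := by
              rw [mul_pow, pow_add 2 m (5 * n + 1),
                show 5 * n + 1 = 3 * n + (2 * n + 1) by ring, pow_add 2 (3 * n) (2 * n + 1)]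
              ring
          _ ≤ 2 ^ ((2 * t + 3) * r) * Q ^ (3 * n) :=
              Nat.mul_le_mul_right _ (Nat.pow_le_pow_right (by norm_num) h8)
          _ = (2 ^ (2 * t + 3)) ^ r * Q ^ (3 * n) := by rw [pow_mul]
          _ ≤ Q ^ r * Q ^ (3 * n) := Nat.mul_le_mul_right _ (Nat.pow_le_pow_left hQ1 _)
          _ = Q ^ s := by rw [← pow_add, hr, add_comm]
          _ = _ := by rw [hQ]
      refine Nat.le_of_mul_le_mul_left (c := 2 ^ m) ?_ (by positivity)
      calc 2 ^ m * ((X2 β).card * G) = (X2 β).card * (2 ^ m * G) := by ring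
        _ ≤ (X2 β).card * (R - 1) ^ s := Nat.mul_le_mul_left _ h2
        _ ≤ _ := h1
    have hlab : R ^ n * (d * R) ^ n ≤ R ^ (3 * n) := by
      calc R ^ n * (d * R) ^ n ≤ R ^ n * (R * R) ^ n :=
            Nat.mul_le_mul_left _ (Nat.pow_le_pow_left (Nat.mul_le_mul_right _ hdR) _)
        _ = _ := by
            rw [mul_pow, ← pow_add, ← pow_add]
            congr 1
            ring
    have hqn : 0 < R ^ (3 * n) := Nat.pow_pos hR1
    have h3 : (univ.biUnion (fun β : Lb n d R => X1 β ∪ X2 β)).card * G ≤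
        R ^ (3 * n) * (2 * C) := by
      calc (univ.biUnion (fun β : Lb n d R => X1 β ∪ X2 β)).card * G ≤
          (∑ β : Lb n d R, (X1 β ∪ X2 β).card) * G := Nat.mul_le_mul_right _ card_biUnion_le
        _ = ∑ β : Lb n d R, (X1 β ∪ X2 β).card * G := by rw [sum_mul]
        _ ≤ ∑ _β : Lb n d R, 2 * C := by
            refine sum_le_sum fun β _ => ?_
            have e1 : (X1 β ∪ X2 β).card * G ≤ ((X1 β).card + (X2 β).card) * G :=
              Nat.mul_le_mul_right _ (card_union_le _ _)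
            rw [add_mul] at e1
            have e2 := hX1 β
            have e3 := hX2 β
            omega
        _ = R ^ n * (d * R) ^ n * (2 * C) := by rw [sum_const, card_univ, card_lb, smul_eq_mul]
        _ ≤ _ := Nat.mul_le_mul_right _ hlab
    refine Nat.le_of_mul_le_mul_left (c := R ^ (3 * n) * 2) ?_ (Nat.mul_pos hqn (by norm_num))
    calc R ^ (3 * n) * 2 * ((univ.biUnion (fun β : Lb n d R => X1 β ∪ X2 β)).card *
          2 ^ (2 * n)) = (univ.biUnion (fun β : Lb n d R => X1 β ∪ X2 β)).card * G := by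
          rw [hG, pow_succ]; ring
      _ ≤ R ^ (3 * n) * (2 * C) := h3
      _ = _ := by ring

theorem nonempty_dmap (hd : 1 ≤ d) : Nonempty (DMap d R) := by
  refine ⟨⟨fun a => ⟨a.1 / d, Nat.div_lt_of_lt_mul a.2⟩, fun b => ?_⟩⟩
  have h1 := Nat.card_le_card_of_injective
    (fun a : {a : Fin (d * R) // (⟨a.1 / d, Nat.div_lt_of_lt_mul a.2⟩ : Fin R) = b} =>
      (⟨a.1.1 % d, Nat.mod_lt _ hd⟩ : Fin d)) (fun a a' h => by
        have h2 : a.1.1 % d = a'.1.1 % d := congrArg Fin.val h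
        have h3 : a.1.1 / d = a'.1.1 / d := congrArg Fin.val (a.2.trans a'.2.symm)
        refine Subtype.ext (Fin.ext ?_)
        rw [← Nat.div_add_mod a.1.1 d, ← Nat.div_add_mod a'.1.1 d, h2, h3])
  rwa [Nat.card_eq_fintype_card (α := Fin d), Fintype.card_fin] at h1

theorem main_sparse {g : ℕ} (hg : 1 ≤ g) : ∃ Δ R₀ D : ℕ, 1 ≤ Δ ∧ ∀ n : ℕ, D ≤ n →
    ∃ H : Fin (Δ * n) ↪ Fin n × Fin n, ∀ d R : ℕ, 1 ≤ d → d ≤ R → R₀ ≤ R →
    ∀ (μ : ℕ) (Ω : Type) [Fintype Ω] [Nonempty Ω] (K W : Ω → Type) [∀ ρ, Field (K ρ)]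
      [∀ ρ, Fintype (W ρ)] (T : ∀ ρ, Net (K ρ) (Fin (Δ * n)) (DMap d R) (W ρ))
      (a : ∀ ρ, W ρ → K ρ),
      (∀ ρ e, (T ρ).reads e ≤ 1) →
      (∀ ρ x, ValueLe g H x → (T ρ).value (a ρ) x = 0) →
      (∀ x, ValueOne H x →
        Nat.card Ω ≤ 2 ^ μ * Nat.card {ρ // (T ρ).value (a ρ) x ≠ 0}) →
      ∃ ρ, 2 ^ n ≤ (2 ^ μ * Fintype.card (W ρ)) ^ D := by
  classical
  obtain ⟨t, ht⟩ : ∃ t, t = 512 * g ^ 2 + 1 := ⟨_, rfl⟩
  obtain ⟨Δ, hΔ⟩ : ∃ Δ, Δ = 256 * g ^ 2 * t := ⟨_, rfl⟩
  have hg2 : 1 ≤ g ^ 2 := Nat.one_le_pow _ _ hg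
  have ht1 : 1 ≤ t := by omega
  refine ⟨Δ, 2 ^ (2 * t + 3) + 1, 2 * Δ + 2 * Δ ^ 2 + 1 + 3 * (t + 1) + (t + 1) * (t + 4),
    ?_, fun n hn => ?_⟩
  · rw [hΔ]
    exact Nat.mul_pos (Nat.mul_pos (by norm_num) hg2) ht1
  obtain ⟨H, hH⟩ := exists_disc (n := n) (Δ := Δ) (κ := 64 * g) (by omega) (by omega)
  refine ⟨H, fun d R hd hdR hR μ Ω _ _ K W _ _ T a h1 hno hyes => ?_⟩
  have hn1 : 1 ≤ n := by omega
  have hR1 : 1 ≤ R := by omega
  have : Nonempty (Fin R) := ⟨⟨0, hR1⟩⟩
  have : Nonempty (Fin (d * R)) := ⟨⟨0, Nat.mul_pos hd hR1⟩⟩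
  have hM : Nonempty (DMap d R) := nonempty_dmap hd
  have hE : 2 * Fintype.card (Fin (Δ * n)) + t * n ≤ t * n * t := by
    rw [Fintype.card_fin, hΔ]
    refine le_of_eq ?_
    calc 2 * (256 * g ^ 2 * t * n) + t * n = t * n * (512 * g ^ 2 + 1) := by ring
      _ = _ := by rw [← ht]
  subst hΔ
  obtain ⟨ρ, hρ, hw1⟩ := rand_density μ Ω K W T a h1 (θ := t * n) (t := t)
    (Nat.mul_pos ht1 hn1) ht1 hE (U := Pt n (256 * g ^ 2 * t * n) d R) (ins H)
    (univ : Finset (Pt n (256 * g ^ 2 * t * n) d R)) (η := 0)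
    (by rw [card_univ, pow_zero, one_mul])
    (fun P _ => hyes _ (ins_valueOne _ P)) (N := 2 ^ (2 * n)) (fun ρ p hp => by
        obtain ⟨B, hB1, hB2⟩ := few_bad (d := d) (R := R) hg hn1 ht hd hdR hR rfl (H := H) hH p hp
        exact ⟨B, fun b hb => hB1 b fun hv => hb (hno ρ _ hv), hB2⟩)
  refine ⟨ρ, ?_⟩
  obtain ⟨w, hw⟩ : ∃ w, w = Fintype.card (W ρ) := ⟨_, rfl⟩
  rw [← hw] at hρ hw1 ⊢
  obtain ⟨X, hX⟩ : ∃ X, X = 2 ^ μ * w := ⟨_, rfl⟩
  have hX1 : 1 ≤ X := by
    rw [hX]
    exact Nat.mul_pos (Nat.pow_pos (by norm_num)) hw1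
  rw [← hX]
  have e1 : 2 ^ (μ + 0 + 1) * (t * w ^ 3) ≤ 2 ^ (t + 4) * X ^ 3 := by
    have e2 : t ≤ 2 ^ t := Nat.lt_two_pow_self.le
    have e3 : 2 ^ μ ≤ (2 ^ μ) ^ 3 := by
      conv_lhs => rw [← pow_one (2 ^ μ)]
      exact Nat.pow_le_pow_right (Nat.pow_pos (by norm_num)) (by norm_num)
    calc 2 ^ (μ + 0 + 1) * (t * w ^ 3) = 2 * (2 ^ μ * (t * w ^ 3)) := by
          rw [add_zero, pow_succ]; ring
      _ ≤ 16 * ((2 ^ μ) ^ 3 * (2 ^ t * w ^ 3)) := by
        refine Nat.mul_le_mul (by norm_num) (Nat.mul_le_mul e3 (Nat.mul_le_mul_right _ e2))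
      _ = _ := by rw [hX, pow_add]; ring
  have e4 : 2 ^ (2 * n) ≤ 2 ^ ((t + 4) * (t + 1)) * X ^ (3 * (t + 1)) := by
    calc 2 ^ (2 * n) ≤ (2 ^ (t + 4) * X ^ 3) ^ (t + 1) := hρ.trans (Nat.pow_le_pow_left e1 _)
      _ = _ := by rw [mul_pow, ← pow_mul, ← pow_mul]
  have e5 : 2 ^ ((t + 4) * (t + 1)) ≤ 2 ^ n := by
    refine Nat.pow_le_pow_right (by norm_num) ?_
    have : (t + 4) * (t + 1) = (t + 1) * (t + 4) := mul_comm _ _
    omega
  have e6 : 2 ^ n ≤ X ^ (3 * (t + 1)) := by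
    refine Nat.le_of_mul_le_mul_left (c := 2 ^ n) ?_ (by positivity)
    rw [← pow_add, show n + n = 2 * n by ring]
    exact e4.trans (Nat.mul_le_mul_right _ e5)
  exact e6.trans (Nat.pow_le_pow_right hX1 (by omega))

/-- Conversely the satisfying labelings are counted by linear networks. -/
theorem upper_sparse {n m d R : ℕ} (hm : 1 ≤ m) (H : Fin m → Fin n × Fin n) :
    ∃ (T : Net ℚ (Fin m) (DMap d R) (Lb n d R)) (a : Lb n d R → ℚ),
      T.Linear ∧ (∀ e, T.reads e = 1) ∧ T.size = 2 * m - 1 ∧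
        ∀ x, T.value a x ≠ 0 ↔ ValueOne H x := by
  classical
  have : Nonempty (Fin m) := ⟨⟨0, hm⟩⟩
  obtain ⟨T, h1, h2, h3, h4⟩ := exists_product (K := ℚ)
    (fun (e : Fin m) (ω : DMap d R) (β : Lb n d R) =>
      if ω.1 (β.2 (H e).2) = β.1 (H e).1 then (1 : ℚ) else 0)
  refine ⟨T, fun _ => 1, h1, h2, ?_, fun x => ?_⟩
  · rw [h3, Fintype.card_fin]
  · have h5 : ∀ β : Lb n d R, 0 ≤ T.eval x β ∧
        (T.eval x β ≠ 0 ↔ ∀ e, (x e).1 (β.2 (H e).2) = β.1 (H e).1) := by
      intro β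
      rw [h4]
      refine ⟨prod_nonneg fun e _ => by split_ifs <;> norm_num, ?_⟩
      rw [prod_ne_zero_iff]
      constructor
      · intro h e
        by_contra hcon
        exact h e (mem_univ _) (if_neg hcon)
      · intro h e _
        rw [if_pos (h e)]
        exact one_ne_zero
    unfold Net.value
    rw [Ne, sum_eq_zero_iff_of_nonneg (fun k _ => by
      rw [one_mul]
      exact (h5 k).1)]
    push Not
    constructor
    · rintro ⟨β, -, hβ⟩
      rw [one_mul] at hβ
      exact ⟨β.1, β.2, (h5 β).2.1 hβ⟩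
    · rintro ⟨LV, LW, h⟩
      refine ⟨(LV, LW), mem_univ _, ?_⟩
      rw [one_mul]
      exact (h5 _).2.2 h

end Pool.Agent.TH700.PS
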