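import Pool.Agent.TH700.PS.Defs
import Mathlib.Logic.Equiv.Basic
import Mathlib.Algebra.Group.Action.Defs
import Mathlib.Algebra.Module.Defs
import Mathlib.Algebra.BigOperators.Ring.Finset
import Mathlib.Algebra.BigOperators.Field
import Mathlib.Algebra.Order.BigOperators.Group.Finset
import Mathlib.Data.Fintype.EquivFin
import Mathlib.Tactic.Ring

/-!
# Counting the maps with fibers of at most d elements
-/

set_option autoImplicit false

open Finset

namespace Pool.Agent.TH700.PS

variable {d R : ℕ}

noncomputable instance : Fintype (DMap d R) := by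
  classical
  unfold DMap
  infer_instance

/-- Composition with a permutation of the values. -/
def post (σ : Equiv.Perm (Fin R)) (ω : DMap d R) : DMap d R :=
  ⟨fun i => σ (ω.1 i), fun b => by
    have h1 : Nat.card {a // σ (ω.1 a) = b} = Nat.card {a // ω.1 a = σ.symm b} :=
      Nat.card_congr (Equiv.subtypeEquivRight fun a => by rw [Equiv.eq_symm_apply])
    rw [h1]
    exact ω.2 _⟩

/-- Composition with a permutation of the arguments. -/
def pre (σ : Equiv.Perm (Fin (d * R))) (ω : DMap d R) : DMap d R :=
  ⟨fun i => ω.1 (σ i), fun b => by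
    have h1 : Nat.card {a // ω.1 (σ a) = b} = Nat.card {a // ω.1 a = b} :=
      Nat.card_congr (σ.subtypeEquiv fun a => Iff.rfl)
    rw [h1]
    exact ω.2 _⟩

theorem post_injective (σ : Equiv.Perm (Fin R)) :
    Function.Injective (post σ : DMap d R → DMap d R) := by
  intro ω ω' h
  refine Subtype.ext (funext fun i => ?_)
  have h1 := congrFun (congrArg Subtype.val h) i
  exact σ.injective h1

theorem pre_injective (σ : Equiv.Perm (Fin (d * R))) :
    Function.Injective (pre σ : DMap d R → DMap d R) := by
  intro ω ω' h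
  refine Subtype.ext (funext fun i => ?_)
  have h1 := congrFun (congrArg Subtype.val h) (σ.symm i)
  have h2 : ω.1 (σ (σ.symm i)) = ω'.1 (σ (σ.symm i)) := h1
  rwa [Equiv.apply_symm_apply] at h2

/-- The two values are nearly independent. -/
theorem card_two {a a' : Fin (d * R)} (haa : a ≠ a') (c c' : Fin R) :
    (R - 1) * (univ.filter (fun ω : DMap d R => ω.1 a = c ∧ ω.1 a' = c')).card ≤
      (univ.filter (fun ω : DMap d R => ω.1 a = c)).card := by
  classical
  by_cases hcd : c' = c
  · subst hcd
    have h1 : ∀ a'' ∈ (univ : Finset (Fin (d * R))).erase a,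
        (univ.filter (fun ω : DMap d R => ω.1 a = c' ∧ ω.1 a' = c')).card ≤
        (univ.filter (fun ω : DMap d R => ω.1 a = c' ∧ ω.1 a'' = c')).card := by
      intro a'' ha''
      rw [mem_erase] at ha''
      refine card_le_card_of_injOn (pre (Equiv.swap a' a'')) (fun ω hω => ?_)
        (pre_injective _).injOn
      rw [mem_coe, mem_filter] at hω ⊢
      refine ⟨mem_univ _, ?_, ?_⟩
      · show ω.1 (Equiv.swap a' a'' a) = c'
        rw [Equiv.swap_apply_of_ne_of_ne haa ha''.1.symm]
        exact hω.2.1
      · show ω.1 (Equiv.swap a' a'' a'') = c'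
        rw [Equiv.swap_apply_right]
        exact hω.2.2
    have h2 : ∑ a'' ∈ (univ : Finset (Fin (d * R))).erase a,
        (univ.filter (fun ω : DMap d R => ω.1 a = c' ∧ ω.1 a'' = c')).card ≤
        (univ.filter (fun ω : DMap d R => ω.1 a = c')).card * (d - 1) := by
      have h3 : ∀ a'' : Fin (d * R),
          (univ.filter (fun ω : DMap d R => ω.1 a = c' ∧ ω.1 a'' = c')).card =
          ∑ ω ∈ univ.filter (fun ω : DMap d R => ω.1 a = c'), if ω.1 a'' = c' then 1 else 0 := by
        intro a''
        rw [← filter_filter, card_filter]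
      rw [sum_congr rfl fun a'' _ => h3 a'', sum_comm]
      refine sum_le_card_nsmul _ _ _ fun ω hω => ?_
      rw [← card_filter]
      have h4 := ω.2 c'
      rw [Nat.card_eq_fintype_card, Fintype.card_subtype] at h4
      have h5 : ((univ : Finset (Fin (d * R))).erase a).filter (fun a'' => ω.1 a'' = c') =
          (univ.filter (fun a'' => ω.1 a'' = c')).erase a := by
        ext i
        simp only [mem_filter, mem_erase, mem_univ, true_and]
        constructor
        · rintro ⟨⟨h, -⟩, h'⟩
          exact ⟨h, h'⟩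
        · rintro ⟨h, h'⟩
          exact ⟨⟨h, trivial⟩, h'⟩
      rw [h5, card_erase_of_mem (by
        rw [mem_filter]
        exact ⟨mem_univ _, (mem_filter.1 hω).2⟩)]
      omega
    obtain ⟨X, hX⟩ : ∃ X, X = (univ.filter (fun ω : DMap d R => ω.1 a = c' ∧ ω.1 a' = c')).card :=
      ⟨_, rfl⟩
    obtain ⟨Y, hY⟩ : ∃ Y, Y = (univ.filter (fun ω : DMap d R => ω.1 a = c')).card := ⟨_, rfl⟩
    have h3 : (d * R - 1) * X ≤ Y * (d - 1) := by
      rw [hX, hY]
      calc _ = ∑ _a'' ∈ (univ : Finset (Fin (d * R))).erase a,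
          (univ.filter (fun ω : DMap d R => ω.1 a = c' ∧ ω.1 a' = c')).card := by
            rw [sum_const, card_erase_of_mem (mem_univ _), card_univ, Fintype.card_fin,
              smul_eq_mul]
        _ ≤ _ := (sum_le_sum h1).trans h2
    rw [← hX, ← hY]
    rcases Nat.lt_or_ge d 2 with hd | hd
    · rcases Nat.eq_zero_or_pos d with h0 | h0
      · exfalso
        subst h0
        exact Nat.not_lt_zero _ (lt_of_lt_of_eq a.2 (Nat.zero_mul R))
      · obtain rfl : d = 1 := by omega
        rw [one_mul, Nat.sub_self, mul_zero] at h3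
        omega
    · obtain ⟨e, rfl⟩ : ∃ e, d = e + 2 := ⟨d - 2, by omega⟩
      rcases Nat.eq_zero_or_pos R with h0 | h0
      · rw [h0]
        simp
      · obtain ⟨r, rfl⟩ : ∃ r, R = r + 1 := ⟨R - 1, by omega⟩
        have h4 : (e + 2) * (r + 1) - 1 = (e + 1) * r + (r + e + 1) := by
          have h6 : (e + 2) * (r + 1) = (e + 1) * r + (r + e + 1) + 1 := by ring
          rw [h6, Nat.add_sub_cancel]
        have h5 : e + 2 - 1 = e + 1 := by omega
        rw [h4, h5] at h3
        rw [Nat.add_sub_cancel]
        refine Nat.le_of_mul_le_mul_left (c := e + 1) ?_ (by omega)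
        calc (e + 1) * (r * X) = (e + 1) * r * X := by ring
          _ ≤ ((e + 1) * r + (r + e + 1)) * X := Nat.mul_le_mul_right _ (Nat.le_add_right _ _)
          _ ≤ Y * (e + 1) := h3
          _ = _ := mul_comm _ _
  · have h1 : ∀ b' ∈ (univ : Finset (Fin R)).erase c,
        (univ.filter (fun ω : DMap d R => ω.1 a = c ∧ ω.1 a' = c')).card ≤
        (univ.filter (fun ω : DMap d R => ω.1 a = c ∧ ω.1 a' = b')).card := by
      intro b' hb'
      rw [mem_erase] at hb'
      refine card_le_card_of_injOn (post (Equiv.swap c' b')) (fun ω hω => ?_)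
        (post_injective _).injOn
      rw [mem_coe, mem_filter] at hω ⊢
      refine ⟨mem_univ _, ?_, ?_⟩
      · show Equiv.swap c' b' (ω.1 a) = c
        rw [hω.2.1, Equiv.swap_apply_of_ne_of_ne (Ne.symm hcd) hb'.1.symm]
      · show Equiv.swap c' b' (ω.1 a') = b'
        rw [hω.2.2, Equiv.swap_apply_left]
    have h2 : ∑ b' ∈ (univ : Finset (Fin R)).erase c,
        (univ.filter (fun ω : DMap d R => ω.1 a = c ∧ ω.1 a' = b')).card ≤
        (univ.filter (fun ω : DMap d R => ω.1 a = c)).card := by
      rw [← card_biUnion]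
      · refine card_le_card fun ω hω => ?_
        obtain ⟨b', -, h⟩ := mem_biUnion.1 hω
        exact mem_filter.2 ⟨mem_univ _, (mem_filter.1 h).2.1⟩
      · intro d₁ _ d₂ _ hne
        rw [Function.onFun, disjoint_left]
        intro ω h₁ h₂
        exact hne ((mem_filter.1 h₁).2.2.symm.trans (mem_filter.1 h₂).2.2)
    calc (R - 1) * (univ.filter (fun ω : DMap d R => ω.1 a = c ∧ ω.1 a' = c')).card =
        ∑ _b' ∈ (univ : Finset (Fin R)).erase c,
          (univ.filter (fun ω : DMap d R => ω.1 a = c ∧ ω.1 a' = c')).card := by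
          rw [sum_const, card_erase_of_mem (mem_univ _), card_univ, Fintype.card_fin, smul_eq_mul]
      _ ≤ _ := (sum_le_sum h1).trans h2

/-- The map corrected such that the value at `a` is `b`. -/
def fix (ω : DMap d R) (a : Fin (d * R)) (b : Fin R) : DMap d R := post (Equiv.swap (ω.1 a) b) ω

theorem fix_self (ω : DMap d R) (a : Fin (d * R)) (b : Fin R) : (fix ω a b).1 a = b :=
  Equiv.swap_apply_left _ _

/-- The values of the corrected map at the other places are nearly uniform. -/
theorem card_fix {a a' : Fin (d * R)} (haa : a ≠ a') (b b' : Fin R) :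
    (R - 1) * (univ.filter (fun ω : DMap d R => (fix ω a b).1 a' = b')).card ≤
      Fintype.card (DMap d R) := by
  classical
  have h1 : (univ.filter (fun ω : DMap d R => (fix ω a b).1 a' = b')).card =
      ∑ c : Fin R, (univ.filter (fun ω : DMap d R => ω.1 a = c ∧
        ω.1 a' = Equiv.swap c b b')).card := by
    rw [card_eq_sum_card_fiberwise (f := fun ω : DMap d R => ω.1 a) (t := univ)
      (fun _ _ => mem_univ _)]
    refine sum_congr rfl fun c _ => ?_
    congr 1
    ext ω
    simp only [mem_filter, mem_univ, true_and]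
    constructor
    · rintro ⟨h, rfl⟩
      refine ⟨rfl, ?_⟩
      have h2 : Equiv.swap (ω.1 a) b (ω.1 a') = b' := h
      rw [← h2, Equiv.swap_apply_self]
    · rintro ⟨rfl, h⟩
      refine ⟨?_, rfl⟩
      show Equiv.swap (ω.1 a) b (ω.1 a') = b'
      rw [h, Equiv.swap_apply_self]
  have h2 : ∑ c : Fin R, (univ.filter (fun ω : DMap d R => ω.1 a = c)).card =
      Fintype.card (DMap d R) := by
    rw [← card_univ, card_eq_sum_card_fiberwise (f := fun ω : DMap d R => ω.1 a) (t := univ)
      (fun _ _ => mem_univ _)]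
  rw [h1, mul_sum, ← h2]
  exact sum_le_sum fun c _ => card_two haa _ _

end Pool.Agent.TH700.PS
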